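import Pool.Agent.Q274.GB.Upper

/-!
# Attaching a pendant edge can make the running time of graph bootstrap percolation logarithmic

The definitions are in `Pool/Agent/Q274/GB/Defs.lean`: `copies H G` is the number `n_H(G)` of the
subgraphs of `G` isomorphic to `H`, `step H G` adds to `G` all the edges `e` with
`n_H(G + e) > n_H(G)`, `proc H G i` is the graph `G_i` of the `H`-process on `G`, `runTime H G` is
`τ_H(G)`, the least `t` with `G_t = G_{t+1}`, and `maxTime H n` is `M_H(n)`, the maximum of
`τ_H(G)` over the graphs `G` on `n` vertices. `pendant H u` is `H^{u+}` (the new vertex is `none`).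
`wheel` is the wheel `W_6`: the cycle `0, 1, 2, 3, 4, 5` and the hub `6`.

Theorem. For `H = W_6` and `u` the hub the answer to Q1 is no: `M_H(n) ≥ n - 7` for all `n`, and
`log_5 (n - 2) ≤ M_{H^{u+}}(n) ≤ log_5 n + 48` for all `n ≥ 20`.

Proof. In the process with the pendant edge the hub of the first copy is adjacent to everything from
the second round on; then the other vertices follow the `C_6`-process, where all distances shrink by
the factor five in every round, until everything has stopped or a wheel with another hub has appeared;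
then the graph is complete three rounds later. On the cone over a path nothing faster happens, because
the graph without the hub stays bipartite. Without the pendant edge the neighbourhood of the hub can
grow by one vertex in every round.
-/

set_option autoImplicit false

namespace Pool.Agent.Results.MP_7332c2_co.WheelPendant

open SimpleGraph Q274.GB

/-- The statement of Q1. -/
def Question : Prop :=
  ∀ (k : ℕ) (H : SimpleGraph (Fin k)), H.Connected → ∀ u : Fin k,
    (∃ C : ℕ, ∀ n, maxTime (pendant H u) n ≤ C) ∨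
    ∃ c C : ℝ, 0 < c ∧ c ≤ C ∧ ∃ N : ℕ, ∀ n ≥ N,
      c * maxTime H n ≤ maxTime (pendant H u) n ∧ (maxTime (pendant H u) n : ℝ) ≤ C * maxTime H n

theorem wheel_connected : wheel.Connected := by
  have h : ∀ v : Fin 7, wheel.Reachable 6 v := by
    intro v
    by_cases hv : v = 6
    · subst hv; exact Reachable.refl _
    · exact Adj.reachable ⟨fun h => hv h.symm, Or.inl rfl⟩
  exact ⟨fun a b => (h a).symm.trans (h b)⟩

theorem log_bounds (n : ℕ) (hn : 20 ≤ n) :
    Nat.log 5 (n - 2) ≤ maxTime (pendant wheel 6) n ∧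
      maxTime (pendant wheel 6) n ≤ Nat.log 5 n + 48 := by
  refine ⟨?_, upper_pendant n hn⟩
  have h1 : 1 ≤ Nat.log 5 (n - 2) := by
    rw [Nat.succ_le_iff]
    exact Nat.log_pos (by norm_num) (by omega)
  obtain ⟨i, hi⟩ : ∃ i, Nat.log 5 (n - 2) = i + 1 := ⟨Nat.log 5 (n - 2) - 1, by omega⟩
  have h2 : 5 ^ (i + 1) ≤ n - 2 := by
    rw [← hi]; exact Nat.pow_log_le_self 5 (by omega)
  have := lower_pendant n i (by omega) (by omega)
  rw [hi]
  exact this

theorem not_question : ¬ Question := by
  intro hQ
  rcases hQ 7 wheel wheel_connected 6 with ⟨C, hC⟩ | ⟨c, C, hc, -, N, hN⟩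
  · have h2 := lower_pendant (5 ^ (C + 1) + 20) C
      (le_trans (by norm_num) (Nat.le_add_left 20 _)) (Nat.add_le_add_left (by norm_num) _)
    exact absurd (hC _) (not_le.mpr h2)
  · -- choose `n = 5 ^ (2 k)` with `k` large
    obtain ⟨k, hk⟩ := exists_nat_gt (max (N : ℝ) (100 / c + 10))
    have hkN : (N : ℝ) < k := lt_of_le_of_lt (le_max_left _ _) hk
    have hkc : 100 / c + 10 < k := lt_of_le_of_lt (le_max_right _ _) hk
    have hk10 : (10 : ℝ) < k := lt_of_le_of_lt (by have := div_pos (show (0:ℝ) < 100 by norm_num) hc; linarith) hkc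
    have hck : 100 < c * (k - 10) := by
      have : 100 / c < k - 10 := by linarith
      rwa [div_lt_iff₀ hc, mul_comm] at this
    have hk10' : 10 < k := by exact_mod_cast hk10
    have hkN' : N < k := by exact_mod_cast hkN
    have b1 : k ≤ 5 ^ k := (Nat.lt_pow_self (by norm_num : 1 < 5)).le
    have hn : (5 : ℕ) ^ (2 * k) = 5 ^ k * 5 ^ k := by rw [two_mul, pow_add]
    have b2 : k * k ≤ 5 ^ (2 * k) := by rw [hn]; exact Nat.mul_le_mul b1 b1
    have hnN : N ≤ 5 ^ (2 * k) := by nlinarith
    have hn20 : 20 ≤ 5 ^ (2 * k) := by nlinarith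
    obtain ⟨h1, -⟩ := hN _ hnN
    have h2 := (log_bounds _ hn20).2
    rw [Nat.log_pow (by norm_num)] at h2
    have h3 := lower_wheel (5 ^ (2 * k))
    have h2' : (maxTime (pendant wheel 6) (5 ^ (2 * k)) : ℝ) ≤ 2 * k + 48 := by exact_mod_cast h2
    have h3' : (k : ℝ) * k ≤ maxTime wheel (5 ^ (2 * k)) + 7 := by
      exact_mod_cast b2.trans h3
    have h4 : c * ((k : ℝ) * k - 7) ≤ 2 * k + 48 := by
      refine le_trans ?_ (h1.trans h2')
      apply mul_le_mul_of_nonneg_left _ hc.le
      linarith
    nlinarith

/-- Q1 is false: for the wheel `W_6` and its hub `u`, `M_{H^{u+}}(n)` is unbounded, of order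
`log n`, while `M_H(n) ≥ n - 7`. -/
theorem result :
    wheel.Connected ∧ (∀ n, n ≤ maxTime wheel n + 7) ∧
      (∀ n, 20 ≤ n → Nat.log 5 (n - 2) ≤ maxTime (pendant wheel 6) n ∧
        maxTime (pendant wheel 6) n ≤ Nat.log 5 n + 48) ∧
      ¬ Question :=
  ⟨wheel_connected, lower_wheel, log_bounds, not_question⟩

end Pool.Agent.Results.MP_7332c2_co.WheelPendant
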